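import Pool.Agent.Helper42.QD.Stmts

/-!
# FP3: the counting argument
-/

set_option autoImplicit false

namespace Pool.Agent.Helper42.QD

open Finset

theorem fp3_sum_units {E : Type} [Field E] [Fintype E] [DecidableEq E] (f : E → ℝ) :
    ∑ b : E, f b = f 0 + ∑ b : Eˣ, f b := by
  rw [← Finset.add_sum_erase univ f (mem_univ 0)]
  refine congrArg (fun x => f 0 + x) ?_
  symm
  refine Finset.sum_bij (fun (b : Eˣ) _ => (b : E)) ?_ ?_ ?_ ?_
  · intro b _
    exact mem_erase.2 ⟨b.ne_zero, mem_univ _⟩
  · intro b _ b' _ h
    exact Units.ext h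
  · intro b hb
    exact ⟨Units.mk0 b (mem_erase.1 hb).1, mem_univ _, rfl⟩
  · intro b _
    rfl

theorem fp3_tu_coe {E : Type} [Field E] (t : E ≃+* E) (u : Eˣ) : ((tu t u : Eˣ) : E) = t u := rfl

theorem st_FP3 : ST_FP3 := by
  intro E _ _ _ t a S ht ha hfix hcE hcU hN hS0 hsum hsum0 hSfix hSpair
  classical
  have htt : ∀ u : Eˣ, tu t (tu t u) = u := fun u => Units.ext (ht u)
  let T : Finset Eˣ := univ.filter fun s => ¬ tu t s = s
  let R : Eˣ → Eˣ × Eˣ → Prop := fun s p =>
    s * tu t s = p.2 * tu t p.2 ∧ (s : E) + t s = p.1 * t p.1 + p.2 + t p.2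
  let P : Eˣ → Finset (Eˣ × Eˣ) := fun s => univ.filter (R s)
  -- the number of pairs
  have hcard : ∀ s ∈ T, (P s).card = a * (a + 2) := by
    intro s hs
    have hs1 : ¬ tu t s = s := (mem_filter.1 hs).2
    have hs2 : (s : E) ≠ t s := fun h => hs1 (Units.ext h.symm)
    let U : Finset Eˣ := ((univ.filter fun u : Eˣ => u * tu t u = s * tu t s).erase s).erase (tu t s)
    have hz : tu t (s * tu t s) = s * tu t s := by
      rw [map_mul, htt, mul_comm]
    have hU : U.card = a := by
      have h1 := hN (s * tu t s) hz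
      have h2 : s ∈ univ.filter fun u : Eˣ => u * tu t u = s * tu t s := by simp
      have h3 : tu t s ∈ (univ.filter fun u : Eˣ => u * tu t u = s * tu t s).erase s := by
        rw [mem_erase, mem_filter]
        refine ⟨hs1, mem_univ _, ?_⟩
        rw [htt, mul_comm]
      show (((univ.filter fun u : Eˣ => u * tu t u = s * tu t s).erase s).erase (tu t s)).card = a
      rw [card_erase_of_mem h3, card_erase_of_mem h2, h1]
      omega
    have hmemU : ∀ u, u ∈ U ↔ u ≠ tu t s ∧ u ≠ s ∧ u * tu t u = s * tu t s := by
      intro u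
      show u ∈ (((univ.filter fun u : Eˣ => u * tu t u = s * tu t s).erase s).erase (tu t s)) ↔ _
      rw [mem_erase, mem_erase, mem_filter]
      simp
    -- fibres
    have hfib : ∀ u : Eˣ, (univ.filter fun b : Eˣ => R s (b, u)).card = if u ∈ U then a + 2 else 0 := by
      intro u
      by_cases hu : u ∈ U
      · rw [if_pos hu]
        obtain ⟨h1, h2, h3⟩ := (hmemU u).1 hu
        have h3' : (u : E) * t u = s * t s := by
          have := congrArg (fun x : Eˣ => (x : E)) h3
          simpa [fp3_tu_coe] using this
        let d : E := s + t s - (u + t u)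
        have hd : d ≠ 0 := by
          intro h0
          have h4 : (s : E) + t s = u + t u := sub_eq_zero.1 h0
          have h5 : ((u : E) - s) * (u - t s) = 0 := by
            have : ((u : E) - s) * (u - t s) = u * u - u * (s + t s) + s * t s := by ring
            rw [this, h4, ← h3']
            ring
          rcases mul_eq_zero.1 h5 with h6 | h6
          · exact h2 (Units.ext (sub_eq_zero.1 h6))
          · exact h1 (Units.ext (sub_eq_zero.1 h6))
        have htd : t d = d := by
          show t (s + t s - (u + t u)) = s + t s - (u + t u)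
          rw [map_sub, map_add, map_add, ht, ht]
          ring
        let z : Eˣ := Units.mk0 d hd
        have hz1 : tu t z = z := Units.ext htd
        rw [← hN z hz1]
        refine congrArg Finset.card ?_
        ext b
        rw [mem_filter, mem_filter]
        refine and_congr_right fun _ => ?_
        constructor
        · intro h
          apply Units.ext
          show (b : E) * t b = s + t s - (u + t u)
          have h4 : (s : E) + t s = b * t b + u + t u := h.2
          rw [h4]
          ring
        · intro h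
          refine ⟨h3.symm, ?_⟩
          have h4 : (b : E) * t b = s + t s - (u + t u) := congrArg (fun x : Eˣ => (x : E)) h
          show (s : E) + t s = b * t b + u + t u
          rw [h4]
          ring
      · rw [if_neg hu, card_eq_zero, filter_eq_empty_iff]
        intro b _ hb
        apply hu
        rw [hmemU]
        have hb1 : s * tu t s = u * tu t u := hb.1
        have hb2 : (s : E) + t s = b * t b + u + t u := hb.2
        have hb0 : (b : E) * t b ≠ 0 := mul_ne_zero b.ne_zero (tu t b).ne_zero
        refine ⟨?_, ?_, hb1.symm⟩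
        · intro h
          apply hb0
          rw [h, fp3_tu_coe, ht] at hb2
          have : (b : E) * t b = (s + t s) - (t s + s) := by rw [hb2]; ring
          rw [this]
          ring
        · intro h
          apply hb0
          rw [h] at hb2
          have : (b : E) * t b = (s + t s) - (s + t s) := by
            nth_rewrite 1 [hb2]
            ring
          rw [this]
          ring
    have h1 : (P s).card = ∑ u : Eˣ, (univ.filter fun b : Eˣ => R s (b, u)).card := by
      have h2 := Finset.card_eq_sum_card_fiberwise (s := P s) (t := (univ : Finset Eˣ))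
        (f := fun p : Eˣ × Eˣ => p.2) (fun p _ => mem_univ _)
      rw [h2]
      refine Finset.sum_congr rfl fun u _ => ?_
      refine Finset.card_bij (fun p _ => p.1) ?_ ?_ ?_
      · intro p hp
        rw [mem_filter] at hp ⊢
        refine ⟨mem_univ _, ?_⟩
        have h3 := (mem_filter.1 hp.1).2
        have h4 : (p.1, u) = p := Prod.ext rfl hp.2.symm
        rw [h4]
        exact h3
      · intro p hp q hq h
        rw [mem_filter] at hp hq
        exact Prod.ext h (hp.2.trans hq.2.symm)
      · intro b hb
        refine ⟨(b, u), ?_, rfl⟩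
        rw [mem_filter]
        exact ⟨mem_filter.2 ⟨mem_univ _, (mem_filter.1 hb).2⟩, rfl⟩
    rw [h1, Finset.sum_congr rfl fun u _ => hfib u, ← Finset.sum_filter, Finset.sum_const]
    have h2 : (univ.filter fun u : Eˣ => u ∈ U) = U := by
      ext u
      simp
    rw [h2, hU, smul_eq_mul]
  -- multiplicity
  have hmul : ∀ p : Eˣ × Eˣ, (T.filter fun s => R s p).card ≤ 2 := by
    intro p
    by_cases hne : ∃ s0, s0 ∈ T.filter fun s => R s p
    · obtain ⟨s0, hs0⟩ := hne
      have h0 := (mem_filter.1 hs0).2
      have hsub : (T.filter fun s => R s p) ⊆ {s0, tu t s0} := by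
        intro s hs
        have h1 := (mem_filter.1 hs).2
        have e1 : (s : E) * t s = s0 * t s0 := by
          have := congrArg (fun x : Eˣ => (x : E)) (h1.1.trans h0.1.symm)
          simpa [fp3_tu_coe] using this
        have e2 : (s : E) + t s = s0 + t s0 := h1.2.trans h0.2.symm
        have h5 : ((s : E) - s0) * (s - t s0) = 0 := by
          have : ((s : E) - s0) * (s - t s0) = s * s - s * (s0 + t s0) + s0 * t s0 := by ring
          rw [this, ← e2, ← e1]
          ring
        rw [mem_insert, mem_singleton]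
        rcases mul_eq_zero.1 h5 with h6 | h6
        · exact Or.inl (Units.ext (sub_eq_zero.1 h6))
        · exact Or.inr (Units.ext (sub_eq_zero.1 h6))
      exact (card_le_card hsub).trans (card_le_two)
    · have : (T.filter fun s => R s p) = ∅ := by
        rw [eq_empty_iff_forall_notMem]
        intro s hs
        exact hne ⟨s, hs⟩
      rw [this, card_empty]
      exact Nat.zero_le _
  -- the double sum
  have hmain : ((a * (a + 2) : ℕ) : ℝ) * ∑ s ∈ T, S 0 s ≤ 2 * ∑ p : Eˣ × Eˣ, S p.1 p.2 := by
    have h1 : ((a * (a + 2) : ℕ) : ℝ) * ∑ s ∈ T, S 0 s = ∑ s ∈ T, ∑ p ∈ P s, S p.1 p.2 := by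
      rw [Finset.mul_sum]
      refine Finset.sum_congr rfl fun s hs => ?_
      have h2 : ∀ p ∈ P s, S p.1 p.2 = S 0 s := by
        intro p hp
        have h3 := (mem_filter.1 hp).2
        refine hSpair _ _ _ p.1.ne_zero h3.1 h3.2 ?_
        intro h4
        exact (mem_filter.1 hs).2 (Units.ext h4.symm)
      rw [Finset.sum_congr rfl h2, Finset.sum_const, hcard s hs, nsmul_eq_mul]
    have h2 : ∑ s ∈ T, ∑ p ∈ P s, S p.1 p.2 =
        ∑ p : Eˣ × Eˣ, ((T.filter fun s => R s p).card : ℝ) * S p.1 p.2 := by
      have h3 : ∀ s ∈ T, ∑ p ∈ P s, S p.1 p.2 = ∑ p : Eˣ × Eˣ, if R s p then S p.1 p.2 else 0 := by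
        intro s _
        exact Finset.sum_filter _ _
      rw [Finset.sum_congr rfl h3, Finset.sum_comm]
      refine Finset.sum_congr rfl fun p _ => ?_
      rw [← Finset.sum_filter, Finset.sum_const, nsmul_eq_mul]
    rw [h1, h2, Finset.mul_sum]
    refine Finset.sum_le_sum fun p _ => ?_
    have h3 : ((T.filter fun s => R s p).card : ℝ) ≤ 2 := by exact_mod_cast hmul p
    exact mul_le_mul_of_nonneg_right h3 (hS0 _ _)
  have hprod : ∑ p : Eˣ × Eˣ, S p.1 p.2 =
      (Fintype.card E : ℝ) * Fintype.card Eˣ - (Fintype.card Eˣ : ℝ) * (a + 2) := by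
    rw [← hsum, ← hsum0, Fintype.sum_prod_type, Finset.sum_comm]
    have h1 : ∀ u : Eˣ, ∑ b : E, S b u = S 0 u + ∑ b : Eˣ, S b u := fun u =>
      fp3_sum_units fun b => S b u
    rw [Finset.sum_congr rfl fun u _ => h1 u, Finset.sum_add_distrib]
    ring
  have hT : ∑ s ∈ T, S 0 s = (Fintype.card Eˣ : ℝ) * (a + 2) - a * (a : ℝ) ^ 2 := by
    have h1 := Finset.sum_filter_add_sum_filter_not univ (fun s : Eˣ => tu t s = s) (fun s => S 0 s)
    have h2 : ∑ s ∈ univ.filter (fun s : Eˣ => tu t s = s), S 0 s = a * (a : ℝ) ^ 2 := by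
      rw [Finset.sum_congr rfl fun s hs => hSfix s (mem_filter.1 hs).2, Finset.sum_const, hfix,
        nsmul_eq_mul]
    rw [h2, hsum0] at h1
    show ∑ s ∈ univ.filter (fun s : Eˣ => ¬ tu t s = s), S 0 s = _
    linarith
  rw [hT, hprod, hcE, hcU] at hmain
  push_cast at hmain
  have ha' : (1 : ℝ) ≤ a := by exact_mod_cast ha
  nlinarith [mul_pos (show (0 : ℝ) < a by linarith) (show (0 : ℝ) < (a : ℝ) + 2 by linarith)]

end Pool.Agent.Helper42.QD
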